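import Mathlib
import Pool.Agent.H29.Parent
import Pool.Agent.H29.StarPCGDefs

set_option autoImplicit false

namespace Pool.Agent.Results.MP_90e7d5_co.Unbounded

open Pool.Agent.H29.StarPCG

/-- vertices -/
def Vx (c : ℕ) : Type := {l : List (Fin (2 * c + 1)) // l.length ≤ c + 1}

instance (c : ℕ) : Finite (Vx c) := List.finite_length_le (Fin (2 * c + 1)) (c + 1)

/-- the tree -/
def Tr (c : ℕ) : SimpleGraph (Vx c) where
  Adj u v := (∃ a, u.1 = a :: v.1) ∨ ∃ a, v.1 = a :: u.1
  symm := ⟨fun _ _ h => h.symm⟩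
  loopless := ⟨fun u h => by
    rcases h with ⟨a, h⟩ | ⟨a, h⟩ <;> exact List.cons_ne_self a u.1 h.symm⟩

theorem acyc (c : ℕ) : (Tr c).IsAcyclic := by
  refine Pool.Agent.H29.Parent.acyclic _ (fun u => u.1.length)
    (fun u => ⟨u.1.tail, by have := u.2; simp; omega⟩) ?_
  rintro u v (⟨a, h⟩ | ⟨a, h⟩)
  · exact Or.inl ⟨Subtype.ext (by simp [h]), by simp [h]⟩
  · exact Or.inr ⟨Subtype.ext (by simp [h]), by simp [h]⟩

theorem result : ∀ c : ℕ, ∃ (V : Type) (_ : Fintype V) (G : SimpleGraph V), G.IsAcyclic ∧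
    ∀ k : ℕ, k ≤ c → ¬ IsStarPCG G k := by
  intro c
  classical
  refine ⟨Vx c, Fintype.ofFinite _, Tr c, acyc c, ?_⟩
  rintro k hk ⟨w, a, b, _, _, _, h⟩
  let ch : (u : Vx c) → u.1.length ≤ c → Fin (2 * c + 1) → Vx c := fun u hu x =>
    ⟨x :: u.1, by simp; omega⟩
  have trip : ∀ (u : Vx c) (hu : u.1.length ≤ c), ∃ (i : Fin k) (x y z : Fin (2 * c + 1)),
      x ≠ y ∧ z ≠ y ∧ w (ch u hu x) ≤ w (ch u hu y) ∧ w (ch u hu y) ≤ w (ch u hu z) ∧
      a i ≤ w u + w (ch u hu x) ∧ w u + w (ch u hu z) ≤ b i := by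
    intro u hu
    have h1 : ∀ x, ∃ i, w u + w (ch u hu x) ∈ Set.Icc (a i) (b i) := fun x =>
      (h _ _ (show (Tr c).Adj u (ch u hu x) from Or.inr ⟨x, rfl⟩).ne).mp (Or.inr ⟨x, rfl⟩)
    choose f hf using h1
    obtain ⟨i, hi⟩ := Fintype.exists_lt_card_fiber_of_mul_lt_card f (n := 2) (by simp; omega)
    obtain ⟨x, y, z, hx, hy, hz, h1, h2, h3⟩ := Finset.two_lt_card_iff.mp hi
    have ex := hf x
    have ey := hf y
    have ez := hf z
    rw [(Finset.mem_filter.mp hx).2] at ex
    rw [(Finset.mem_filter.mp hy).2] at ey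
    rw [(Finset.mem_filter.mp hz).2] at ez
    rcases le_total (w (ch u hu x)) (w (ch u hu y)) with p | p <;>
      rcases le_total (w (ch u hu y)) (w (ch u hu z)) with q | q <;>
      rcases le_total (w (ch u hu x)) (w (ch u hu z)) with r | r
    · exact ⟨i, x, y, z, h1, h3.symm, p, q, ex.1, ez.2⟩
    · exact ⟨i, x, y, z, h1, h3.symm, p, q, ex.1, ez.2⟩
    · exact ⟨i, x, z, y, h2, h3, r, q, ex.1, ey.2⟩
    · exact ⟨i, z, x, y, h2.symm, h1.symm, r, p, ez.1, ey.2⟩
    · exact ⟨i, y, x, z, h1.symm, h2.symm, p, r, ey.1, ez.2⟩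
    · exact ⟨i, y, z, x, h3, h2, q, r, ey.1, ex.2⟩
    · exact ⟨i, z, y, x, h3.symm, h1, q, p, ez.1, ex.2⟩
    · exact ⟨i, z, y, x, h3.symm, h1, q, p, ez.1, ex.2⟩
  choose i x y z t1 t2 t3 t4 t5 t6 using trip
  have key : ∀ n (u : Vx c) (hu : u.1.length ≤ c), u.1.length + n = c →
      n + 1 ≤ (Finset.univ.filter fun j => b j - a j ≤ b (i u hu) - a (i u hu)).card := by
    intro n
    induction n with
    | zero => exact fun u hu _ => Finset.card_pos.mpr ⟨i u hu, by simp⟩
    | succ n ih =>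
      intro u hu hn
      have hv : (ch u hu (y u hu)).1.length ≤ c := by simp [ch]; omega
      have h1 := ih (ch u hu (y u hu)) hv (by simp [ch]; omega)
      have nad : ∀ p q, p ≠ y u hu → w (ch u hu p) + w (ch _ hv q) ∉
          Set.Icc (a (i _ hv)) (b (i _ hv)) := by
        intro p q hp hm
        have hne : ch u hu p ≠ ch _ hv q := fun e => by
          have := congrArg (fun s => s.1.length) e
          simp [ch] at this
        rcases (h _ _ hne).mpr ⟨_, hm⟩ with ⟨s, e⟩ | ⟨s, e⟩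
        · have := congrArg List.length e
          simp [ch] at this
        · simp [ch] at e
          exact hp e.2.symm
      have n1 := nad _ (x _ hv) (t2 u hu)
      have n2 := nad _ (z _ hv) (t1 u hu)
      have a1 := t3 u hu
      have a2 := t4 u hu
      have a3 := t5 u hu
      have a4 := t6 u hu
      have b1 := t3 _ hv
      have b2 := t4 _ hv
      have b3 := t5 _ hv
      have b4 := t6 _ hv
      rw [Set.mem_Icc, not_and_or, not_le, not_le] at n1 n2
      have lt : b (i _ hv) - a (i _ hv) < b (i u hu) - a (i u hu) := by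
        rcases n1 with n1 | n1 <;> rcases n2 with n2 | n2 <;> linarith
      refine Nat.succ_le_of_lt (lt_of_le_of_lt h1 (Finset.card_lt_card ⟨fun j hj => ?_, fun hs => ?_⟩))
      · simp only [Finset.mem_filter, Finset.mem_univ, true_and] at hj ⊢
        linarith
      · have := hs (Finset.mem_filter.mpr ⟨Finset.mem_univ (i u hu), le_rfl⟩)
        simp only [Finset.mem_filter, Finset.mem_univ, true_and] at this
        linarith
  have h1 := (key c ⟨[], by simp⟩ (by simp) (by simp)).trans (Finset.card_le_univ _)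
  simp at h1
  omega

end Pool.Agent.Results.MP_90e7d5_co.Unbounded
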